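import Pool.Agent.P8H24.PG.Stm

/-!
# Voiculescu-Brown entropy zero implies subexponential contractive rank
-/

set_option autoImplicit false

open Finset Filter Topology
open scoped InnerProductSpace ComplexOrder

namespace Pool.Agent.P8H24.PG

theorem lowRank_of {X Y : Type} [NormedAddCommGroup X] [NormedSpace ℂ X] [NormedAddCommGroup Y]
    [NormedSpace ℂ Y] (π : X →L[ℂ] Y) (T : X → X) (x : X)
    (App : Set X → ℝ → ℕ → Prop)
    (happ : ∀ (n : ℕ) (δ : ℝ) (k : ℕ), App (⋃ j : Fin n, (T^[(j : ℕ)]) '' {x}) δ k →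
      CApprox π n (fun j => (T^[j]) x) δ k)
    (h : ∀ δ : ℝ, 0 < δ → ExpGrowth.expGrowthSup (fun n : ℕ =>
      ⨅ k : {k : ℕ // App (⋃ j : Fin n, (T^[(j : ℕ)]) '' {x}) δ k}, ((k : ℕ) : ENNReal)) ≤ 0) :
    LowRank π T x := by
  intro δ hδ ε hε n₀
  have h1 := h δ hδ
  have h2 : ExpGrowth.expGrowthSup (fun n : ℕ =>
      ⨅ k : {k : ℕ // App (⋃ j : Fin n, (T^[(j : ℕ)]) '' {x}) δ k}, ((k : ℕ) : ENNReal)) <
      (((ε / 2 : ℝ)) : EReal) := lt_of_le_of_lt h1 (by exact_mod_cast half_pos hε)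
  have h3 := (ExpGrowth.eventually_le_exp h2).and (eventually_ge_atTop (n₀ + 1))
  obtain ⟨n, hn, hn1⟩ := h3.exists
  refine ⟨n, by omega, ?_⟩
  have h4 : EReal.exp (((ε / 2 : ℝ) : EReal) * ((n : ℕ) : EReal)) <
      ENNReal.ofReal (Real.exp (ε * n)) := by
    have h5 : ((ε / 2 : ℝ) : EReal) * ((n : ℕ) : EReal) = ((ε / 2 * n : ℝ) : EReal) := by
      rw [EReal.coe_mul]
      rfl
    rw [h5, EReal.exp_coe, ENNReal.ofReal_lt_ofReal_iff (Real.exp_pos _), Real.exp_lt_exp]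
    have h6 : (0 : ℝ) < n := by
      have : 0 < n := by omega
      exact_mod_cast this
    nlinarith
  have h5 := lt_of_le_of_lt hn h4
  rw [iInf_lt_iff] at h5
  obtain ⟨⟨k, hk⟩, hk2⟩ := h5
  refine ⟨k, ?_, happ n δ k hk⟩
  have h6 : ((k : ℕ) : ENNReal) = ENNReal.ofReal (k : ℝ) := by simp
  rw [h6, ENNReal.ofReal_lt_ofReal_iff (Real.exp_pos _)] at hk2
  exact hk2.le

end Pool.Agent.P8H24.PG
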