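import Pool.Agent.P8H24.PG.Asm2
import Pool.Agent.P8H24.PG.Ht
import Pool.Agent.P8H78.PG.Nf
import Pool.Agent.P8H44.PG.Di
import Pool.Agent.P8H44.PG.Ru
import Pool.Agent.P8H44.PG.Tor
import Pool.Agent.P8H44.PG.Ext
import Pool.Agent.P8H75.PG.Vs
import Pool.Agent.P8H75.PG.Sol
import Pool.Agent.P8H94.PG.Step
import Pool.Agent.P8H48.PG.Act

/-!
# Project PG: all packages together
-/

set_option autoImplicit false

namespace Pool.Agent.P8H24.PG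

theorem all_di : S_DI := Pool.Agent.P8H44.PG.di Pool.Agent.P8H44.PG.ru Pool.Agent.P8H44.PG.tor

theorem all_vs : S_VS :=
  Pool.Agent.P8H75.PG.vs (Pool.Agent.P8H75.PG.sol
    (Pool.Agent.P8H94.PG.step Pool.Agent.P8H48.PG.act Pool.Agent.P8H44.PG.ext))

theorem nt_all {Γ A Y : Type} [Group Γ]
    [CStarAlgebra A] [NormedAddCommGroup Y] [NormedSpace ℂ Y] (u : Γ →* unitary A)
    (hu : IsGroupAlgebra u) (π : A →L[ℂ] Y) (hπ : ∀ a, ‖π a‖ = ‖a‖) (σ : Γ ≃* Γ)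
    (α : A →⋆ₐ[ℂ] A) (hα : ∀ g, ∃ c : ℂ, ‖c‖ = 1 ∧ α (u g) = c • (u (σ g) : A))
    (hLR : ∀ g, LowRank π α (u g : A)) (g : Γ)
    (hg : ∃ m : ℕ, 0 < m ∧ ∃ K : Subgroup Γ, g ∈ K ∧ (∀ x, (σ^[m]) x ∈ K ↔ x ∈ K) ∧
      ∃ H : Subgroup K, H.FiniteIndex ∧ Group.IsSolvable H) :
    ∃ m : ℕ, 0 < m ∧ (∃ k : ℕ, (Pool.Agent.P8H24.NU.dm
        (Pool.Agent.P8H24.NU.itm σ.toMonoidHom m))^[k] g = 1) ∧
      Group.IsNilpotent (Subgroup.closure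
        (Pool.Agent.P8H24.NU.Ds (Pool.Agent.P8H24.NU.itm σ.toMonoidHom m) g)) :=
  nt_of2 Pool.Agent.P8H78.PG.nf Pool.Agent.P8H78.PG.nf2 all_di all_vs u hu π hπ σ α hα hLR g hg

end Pool.Agent.P8H24.PG
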