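import Pool.Agent.P8H24.PG.Stm
import Pool.Agent.P8H24.NU.Gp

/-!
# Assembly: elements of nilpotent type from subexponential rank
-/

set_option autoImplicit false

open Finset Filter Topology
open scoped commutatorElement

namespace Pool.Agent.P8H24.PG

open Pool.Agent.Helper611.PcGrp Pool.Agent.P8H24.NU

/-- the restriction of `σᵐ` to an invariant subgroup -/
def restr {Γ : Type} [Group Γ] (σ : Γ ≃* Γ) (m : ℕ) (K : Subgroup Γ)
    (hK : ∀ x, (σ^[m]) x ∈ K ↔ x ∈ K) : K ≃* K where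
  toFun x := ⟨(σ^[m]) x, (hK x).2 x.2⟩
  invFun x := ⟨(σ.symm^[m]) x, (hK _).1 (by
    rw [(Function.LeftInverse.iterate (fun y => σ.apply_symm_apply y) m : _)]
    exact x.2)⟩
  left_inv x := Subtype.ext (Function.LeftInverse.iterate (fun y => σ.symm_apply_apply y) m _)
  right_inv x := Subtype.ext (Function.LeftInverse.iterate (fun y => σ.apply_symm_apply y) m _)
  map_mul' x y := Subtype.ext (by
    show (itm σ.toMonoidHom m) ((x : Γ) * y) = itm σ.toMonoidHom m x * itm σ.toMonoidHom m y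
    rw [map_mul])

theorem noExp (hE : S_ENT) {Γ A Y : Type} [Group Γ] [CStarAlgebra A] [NormedAddCommGroup Y]
    [NormedSpace ℂ Y] (u : Γ →* unitary A) (hu : IsGroupAlgebra u) (π : A →L[ℂ] Y)
    (hπ : ∀ a, ‖π a‖ = ‖a‖) (σ : Γ ≃* Γ) (α : A → A) (hαs : ∀ c : ℂ, ∀ a, α (c • a) = c • α a)
    (hα : ∀ g, ∃ c : ℂ, ‖c‖ = 1 ∧ α (u g) = c • (u (σ g) : A))
    (hLR : ∀ g, LowRank π α (u g : A)) {m : ℕ} (hm : 0 < m) (K : Subgroup Γ)
    (hK : ∀ x, (σ^[m]) x ∈ K ↔ x ∈ K) : NoExpansion (restr σ m K hK) := by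
  classical
  intro K' h l hl hinv hadd heig x hx
  let h' : Γ → ℂ := fun y => if hy : y ∈ K then h ⟨y, hy⟩ else 0
  have hh : ∀ y : K, h' (y : Γ) = h y := fun y => by
    show (if hy : (y : Γ) ∈ K then h ⟨y, hy⟩ else 0) = h y
    rw [dif_pos y.2]
  have key := hE Γ A Y u hu π hπ σ α hαs hα m hm (K'.map K.subtype) h' l hl ?_ ?_ ?_ (x : Γ)
    (Subgroup.mem_map_of_mem _ hx) (hLR _)
  · rwa [hh] at key
  · rintro _ ⟨y, hy, rfl⟩
    exact ⟨restr σ m K hK y, (hinv y).2 hy, rfl⟩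
  · rintro _ ⟨y, hy, rfl⟩ _ ⟨z, hz, rfl⟩
    show h' ((y * z : K) : Γ) = h' (y : Γ) + h' (z : Γ)
    rw [hh, hh, hh]
    exact hadd y hy z hz
  · rintro _ ⟨y, hy, rfl⟩
    show h' ((restr σ m K hK y : K) : Γ) = l * h' (y : Γ)
    rw [hh, hh]
    exact heig y hy

theorem nt_of (hE : S_ENT) (h1 : S_GR1) (h3 : S_GR3) {Γ A Y : Type} [Group Γ] [CStarAlgebra A]
    [NormedAddCommGroup Y] [NormedSpace ℂ Y] (u : Γ →* unitary A) (hu : IsGroupAlgebra u)
    (π : A →L[ℂ] Y) (hπ : ∀ a, ‖π a‖ = ‖a‖) (σ : Γ ≃* Γ) (α : A → A)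
    (hαs : ∀ c : ℂ, ∀ a, α (c • a) = c • α a)
    (hα : ∀ g, ∃ c : ℂ, ‖c‖ = 1 ∧ α (u g) = c • (u (σ g) : A))
    (hLR : ∀ g, LowRank π α (u g : A)) (g : Γ)
    (hg : ∃ m : ℕ, 0 < m ∧ ∃ K : Subgroup Γ, g ∈ K ∧ (∀ x, (σ^[m]) x ∈ K ↔ x ∈ K) ∧ MaxC K ∧
      ∃ H : Subgroup K, H.FiniteIndex ∧ Group.IsSolvable H) :
    NT σ.toMonoidHom g := by
  obtain ⟨m, hm, K, hgK, hK, hmax, hsol⟩ := hg
  obtain ⟨m', hm', N, l, hN⟩ := h1 K hmax hsol (restr σ m K hK)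
    (noExp hE u hu π hπ σ α hαs hα hLR hm K hK)
  obtain ⟨⟨k, hk⟩, hnil⟩ := h3 K hmax (restr σ m K hK) m' N l hN
  set τ : K →* K := (restr σ m K hK).toMonoidHom with hτ
  have hit : ∀ (i : ℕ) (x : K), (((τ^[i]) x : K) : Γ) = (σ^[m * i]) (x : Γ) := by
    intro i
    induction i with
    | zero => intro x; rfl
    | succ i ih =>
      intro x
      rw [Function.iterate_succ_apply', mul_add, mul_one, add_comm (m * i) m,
        Function.iterate_add_apply, ← ih]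
      rfl
  have hd : ∀ x : K, dm (itm σ.toMonoidHom (m * m')) (x : Γ) = ((diff τ m' x : K) : Γ) := by
    intro x
    show (x : Γ)⁻¹ * (σ^[m * m']) (x : Γ) = ((x⁻¹ * (τ^[m']) x : K) : Γ)
    rw [← hit]
    rfl
  have hdi : ∀ (i : ℕ) (x : K), (dm (itm σ.toMonoidHom (m * m')))^[i] (x : Γ) =
      (((diff τ m')^[i] x : K) : Γ) := by
    intro i
    induction i with
    | zero => intro x; rfl
    | succ i ih =>
      intro x
      rw [Function.iterate_succ_apply', Function.iterate_succ_apply', ih, hd]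
  refine ⟨m * m', Nat.mul_pos hm hm', ⟨k, ?_⟩, ?_⟩
  · have h4 := hdi k ⟨g, hgK⟩
    rw [hk] at h4
    exact h4
  · have h5 : Subgroup.closure (Ds (itm σ.toMonoidHom (m * m')) g) =
        (Subgroup.closure {x : K | ∃ i : ℕ, x = (diff τ m')^[i + 1] ⟨g, hgK⟩}).map K.subtype := by
      rw [MonoidHom.map_closure]
      congr 1
      ext y
      constructor
      · rintro ⟨i, rfl⟩
        exact ⟨_, ⟨i, rfl⟩, (hdi (i + 1) ⟨g, hgK⟩).symm⟩
      · rintro ⟨_, ⟨i, rfl⟩, rfl⟩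
        exact ⟨i, (hdi (i + 1) ⟨g, hgK⟩).symm⟩
    rw [h5]
    have h6 := hnil ⟨g, hgK⟩
    refine Group.IsNilpotent.isVirtuallyNilpotent ?_
    exact Group.nilpotent_of_surjective (K.subtype.subgroupMap _)
      (K.subtype.subgroupMap_surjective _)

end Pool.Agent.P8H24.PG
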