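import Pool.Agent.P8H24.PG.Ent2

/-!
# Assembly for virtually solvable groups: all elements are of nilpotent type
-/

set_option autoImplicit false

open Finset Filter Topology
open scoped commutatorElement

namespace Pool.Agent.P8H24.PG

open Pool.Agent.Helper611.PcGrp Pool.Agent.P8H24.NU

theorem nt_of2 (hNF : S_NF) (hNF2 : S_NF2) (hDI : S_DI) (hVS : S_VS) {Γ A Y : Type} [Group Γ]
    [CStarAlgebra A] [NormedAddCommGroup Y] [NormedSpace ℂ Y] (u : Γ →* unitary A)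
    (hu : IsGroupAlgebra u) (π : A →L[ℂ] Y) (hπ : ∀ a, ‖π a‖ = ‖a‖) (σ : Γ ≃* Γ)
    (α : A →⋆ₐ[ℂ] A) (hα : ∀ g, ∃ c : ℂ, ‖c‖ = 1 ∧ α (u g) = c • (u (σ g) : A))
    (hLR : ∀ g, LowRank π α (u g : A)) (g : Γ)
    (hg : ∃ m : ℕ, 0 < m ∧ ∃ K : Subgroup Γ, g ∈ K ∧ (∀ x, (σ^[m]) x ∈ K ↔ x ∈ K) ∧
      ∃ H : Subgroup K, H.FiniteIndex ∧ Group.IsSolvable H) :
    ∃ m : ℕ, 0 < m ∧ (∃ k : ℕ, (dm (itm σ.toMonoidHom m))^[k] g = 1) ∧
      Group.IsNilpotent (Subgroup.closure (Ds (itm σ.toMonoidHom m) g)) := by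
  obtain ⟨m, hm, K, hgK, hK, hsol⟩ := hg
  obtain ⟨m', hm', ⟨k, hk⟩, hnil⟩ := hVS K hsol (restr σ m K hK)
    (fun K' hK' x hx => lqu hNF hNF2 hDI u hu π hπ σ α hα hLR hm K hK K' hK' x hx) ⟨g, hgK⟩
  set τ : K →* K := (restr σ m K hK).toMonoidHom with hτ
  have hit : ∀ (i : ℕ) (x : K), (((τ^[i]) x : K) : Γ) = (σ^[m * i]) (x : Γ) := by
    intro i
    induction i with
    | zero => intro x; rfl
    | succ i ih =>
      intro x
      rw [Function.iterate_succ_apply', mul_add, mul_one, add_comm (m * i) m,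
        Function.iterate_add_apply, ← ih]
      rfl
  have hd : ∀ x : K, dm (itm σ.toMonoidHom (m * m')) (x : Γ) = ((diff τ m' x : K) : Γ) := by
    intro x
    show (x : Γ)⁻¹ * (σ^[m * m']) (x : Γ) = ((x⁻¹ * (τ^[m']) x : K) : Γ)
    rw [← hit]
    rfl
  have hdi : ∀ (i : ℕ) (x : K), (dm (itm σ.toMonoidHom (m * m')))^[i] (x : Γ) =
      (((diff τ m')^[i] x : K) : Γ) := by
    intro i
    induction i with
    | zero => intro x; rfl
    | succ i ih =>
      intro x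
      rw [Function.iterate_succ_apply', Function.iterate_succ_apply', ih, hd]
  refine ⟨m * m', Nat.mul_pos hm hm', ⟨k, ?_⟩, ?_⟩
  · have h4 := hdi k ⟨g, hgK⟩
    rw [hk] at h4
    exact h4
  · have h5 : Subgroup.closure (Ds (itm σ.toMonoidHom (m * m')) g) =
        (Subgroup.closure {x : K | ∃ i : ℕ, x = (diff τ m')^[i + 1] ⟨g, hgK⟩}).map K.subtype := by
      rw [MonoidHom.map_closure]
      congr 1
      ext y
      constructor
      · rintro ⟨i, rfl⟩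
        exact ⟨_, ⟨i, rfl⟩, (hdi (i + 1) ⟨g, hgK⟩).symm⟩
      · rintro ⟨_, ⟨i, rfl⟩, rfl⟩
        exact ⟨i, (hdi (i + 1) ⟨g, hgK⟩).symm⟩
    rw [h5]
    exact Group.nilpotent_of_surjective (K.subtype.subgroupMap _)
      (K.subtype.subgroupMap_surjective _)

end Pool.Agent.P8H24.PG
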