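import Pool.Agent.P8H24.PG.Stm2
import Pool.Agent.P8H76.PG.Qr

/-!
# The orbit of `x` has exponential rank if all sign patterns are realised along a progression
-/

set_option autoImplicit false

open Finset Filter Topology

namespace Pool.Agent.P8H24.PG

/-- contractive extension of functionals along an isometry -/
theorem ext_contr {X Y : Type} [NormedAddCommGroup X] [NormedSpace ℂ X] [NormedAddCommGroup Y]
    [NormedSpace ℂ Y] (π : X →L[ℂ] Y) (hπ : ∀ a, ‖π a‖ = ‖a‖) (φ : X →L[ℂ] ℂ) (hφ : ‖φ‖ ≤ 1) :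
    ∃ ψ : Y →L[ℂ] ℂ, ‖ψ‖ ≤ 1 ∧ ∀ x, ψ (π x) = φ x := by
  let κl : X →ₗᵢ[ℂ] Y := ⟨π.toLinearMap, hπ⟩
  let e := κl.equivRange
  let p : Submodule ℂ Y := LinearMap.range κl.toLinearMap
  let φ' : p →L[ℂ] ℂ := φ.comp (e.symm.toContinuousLinearEquiv : p →L[ℂ] X)
  obtain ⟨ψ, hψ, hn⟩ := exists_extension_norm_eq p φ'
  refine ⟨ψ, ?_, fun x => ?_⟩
  · rw [hn]
    refine ContinuousLinearMap.opNorm_le_bound _ zero_le_one fun y => ?_
    calc ‖φ' y‖ = ‖φ (e.symm y)‖ := rfl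
      _ ≤ ‖φ‖ * ‖e.symm y‖ := φ.le_opNorm _
      _ ≤ 1 * ‖y‖ := by
        rw [e.symm.norm_map]
        gcongr
  · have := hψ (e x)
    have h2 : ((e x : p) : Y) = π x := rfl
    rw [h2] at this
    rw [this]
    show φ (e.symm (e x)) = φ x
    rw [e.symm_apply_apply]

theorem core {X Y : Type} [NormedAddCommGroup X] [NormedSpace ℂ X] [NormedAddCommGroup Y]
    [NormedSpace ℂ Y] (π : X →L[ℂ] Y) (hπ : ∀ a, ‖π a‖ = ‖a‖) (α : X → X) (x : X)
    (hLR : LowRank π α x) (hx : ∀ j, ‖(α^[j]) x‖ ≤ 1) (d : ℕ) (hd : 1 ≤ d)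
    (hfun : ∀ (n : ℕ) (s : ℕ → ℝ), (∀ j, s j = 1 ∨ s j = -1) →
      ∃ ρ : X →L[ℂ] ℂ, ‖ρ‖ ≤ 1 ∧ ∀ i < n, 1 / 2 ≤ ((s i : ℂ) * ρ ((α^[d * i]) x)).re) : False := by
  obtain ⟨n, hn, k, hk, φ, ψ, hφ, hψ, hap⟩ := hLR (1 / 4) (by norm_num) (1 / (64 * (d : ℕ)))
    (by positivity) (100 * d)
  set N := n / d with hN
  have hN1 : 100 ≤ N := by
    rw [hN, Nat.le_div_iff_mul_le (by omega)]
    exact hn
  have hN2 : ∀ i < N, d * i < n := fun i hi => by
    have h1 : d * N ≤ n := Nat.mul_div_le n d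
    have h2 : d * (i + 1) ≤ d * N := Nat.mul_le_mul_left _ hi
    have h3 : d * i < d * (i + 1) := Nat.mul_lt_mul_of_pos_left (Nat.lt_succ_self i) (by omega)
    omega
  have hN3 : n < d * (N + 1) := Nat.lt_mul_div_succ n (by omega)
  have key := Pool.Agent.P8H76.PG.qr k N (fun i => φ ((α^[d * i]) x)) (1 / 4) (by omega)
    (by norm_num) (fun i _ => (hφ _).trans (hx _)) ?_
  · have h1 : (k : ℝ) ≤ Real.exp ((N + 1) / 64) := by
      refine hk.trans (Real.exp_le_exp.2 ?_)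
      have h2 : (n : ℝ) ≤ (d : ℝ) * ((N : ℝ) + 1) := by exact_mod_cast hN3.le
      have h3 : (0 : ℝ) < (d : ℝ) := by exact_mod_cast hd
      rw [one_div_mul_eq_div, div_le_div_iff₀ (by positivity) (by norm_num)]
      nlinarith
    have h2 : Real.exp ((N : ℝ) * (1 / 4) ^ 2 / 2) =
        Real.exp (((N : ℝ) + 1) / 64) * Real.exp (((N : ℝ) - 1) / 64) := by
      rw [← Real.exp_add]
      congr 1
      ring
    rw [h2] at key
    have h3 : Real.exp (((N : ℝ) + 1) / 64) * Real.exp (((N : ℝ) - 1) / 64) ≤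
        Real.exp (((N : ℝ) + 1) / 64) * 2 := by linarith
    have h4 := le_of_mul_le_mul_left h3 (Real.exp_pos _)
    have h5 := Real.add_one_le_exp (((N : ℝ) - 1) / 64)
    have h6 : (100 : ℝ) ≤ N := by exact_mod_cast hN1
    linarith
  · intro s hs
    obtain ⟨ρ, hρ1, e1⟩ := hfun N s hs
    obtain ⟨ρ', hρ'1, hρ'2⟩ := ext_contr π hπ ρ hρ1
    have e2 : ∀ i < N, 1 / 4 ≤ ((s i : ℂ) * ρ' (ψ (φ ((α^[d * i]) x)))).re := by
      intro i hi
      have h1 := e1 i hi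
      have h2 := hap (d * i) (hN2 i hi)
      have h3 : ‖ρ' (ψ (φ ((α^[d * i]) x))) - ρ ((α^[d * i]) x)‖ ≤ 1 / 4 := by
        rw [← hρ'2, ← map_sub]
        calc _ ≤ ‖ρ'‖ * ‖ψ (φ ((α^[d * i]) x)) - π ((α^[d * i]) x)‖ :=
              ρ'.le_opNorm _
          _ ≤ 1 * (1 / 4) := by gcongr
          _ = 1 / 4 := one_mul _
      have hs1 : ‖(s i : ℂ)‖ = 1 := by
        rw [Complex.norm_real]
        rcases hs i with h | h <;> rw [h] <;> simp
      have h4 : ((s i : ℂ) * ρ ((α^[d * i]) x)).re -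
          ((s i : ℂ) * ρ' (ψ (φ ((α^[d * i]) x)))).re ≤ 1 / 4 := by
        rw [← Complex.sub_re, ← mul_sub]
        refine (Complex.re_le_norm _).trans ?_
        rw [norm_mul, hs1, one_mul, norm_sub_rev]
        exact h3
      linarith
    have e3 : (∑ i ∈ range N, (s i : ℂ) * ρ' (ψ (φ ((α^[d * i]) x)))) =
        ρ' (ψ (∑ i ∈ range N, (s i : ℂ) • φ ((α^[d * i]) x))) := by
      rw [map_sum, map_sum]
      refine Finset.sum_congr rfl fun i _ => ?_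
      rw [map_smul, map_smul, smul_eq_mul]
    calc 1 / 4 * (N : ℝ) = ∑ i ∈ range N, (1 / 4 : ℝ) := by
          rw [Finset.sum_const, Finset.card_range, nsmul_eq_mul, mul_comm]
      _ ≤ ∑ i ∈ range N, ((s i : ℂ) * ρ' (ψ (φ ((α^[d * i]) x)))).re :=
          Finset.sum_le_sum fun i hi => e2 i (Finset.mem_range.1 hi)
      _ = (∑ i ∈ range N, (s i : ℂ) * ρ' (ψ (φ ((α^[d * i]) x)))).re := by
          rw [Complex.re_sum]
      _ ≤ ‖ρ' (ψ (∑ i ∈ range N, (s i : ℂ) • φ ((α^[d * i]) x)))‖ := by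
          rw [e3]
          exact Complex.re_le_norm _
      _ ≤ ‖ρ'‖ * ‖ψ (∑ i ∈ range N, (s i : ℂ) • φ ((α^[d * i]) x))‖ := ρ'.le_opNorm _
      _ ≤ 1 * ‖∑ i ∈ range N, (s i : ℂ) • φ ((α^[d * i]) x)‖ := by
          gcongr
          exact hψ _
      _ = _ := one_mul _

end Pool.Agent.P8H24.PG
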