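import Pool.Agent.P8H24.PG.St

/-!
# Package ENT: no expanding additive eigenfunctions for orbits of subexponential rank
-/

set_option autoImplicit false

open Finset Filter Topology

namespace Pool.Agent.P8H24.PG

/-- the additive character -/
noncomputable def ex (t : ℝ) : ℂ := Complex.exp (2 * Real.pi * Complex.I * (t : ℝ))

theorem ex_add (s t : ℝ) : ex (s + t) = ex s * ex t := by
  rw [ex, ex, ex, ← Complex.exp_add]
  congr 1
  push_cast
  ring

theorem norm_ex (t : ℝ) : ‖ex t‖ = 1 := by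
  have : (2 * Real.pi * Complex.I * (t : ℝ) : ℂ) = ((2 * Real.pi * t : ℝ) : ℂ) * Complex.I := by
    push_cast
    ring
  rw [ex, this, Complex.norm_exp_ofReal_mul_I]

/-- contractive extension of functionals along an isometry -/
theorem ext_contr {X Y : Type} [NormedAddCommGroup X] [NormedSpace ℂ X] [NormedAddCommGroup Y]
    [NormedSpace ℂ Y] (π : X →L[ℂ] Y) (hπ : ∀ a, ‖π a‖ = ‖a‖) (φ : X →L[ℂ] ℂ) (hφ : ‖φ‖ ≤ 1) :
    ∃ ψ : Y →L[ℂ] ℂ, ‖ψ‖ ≤ 1 ∧ ∀ x, ψ (π x) = φ x := by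
  let κl : X →ₗᵢ[ℂ] Y := ⟨π.toLinearMap, hπ⟩
  let e := κl.equivRange
  let p : Submodule ℂ Y := LinearMap.range κl.toLinearMap
  let φ' : p →L[ℂ] ℂ := φ.comp (e.symm.toContinuousLinearEquiv : p →L[ℂ] X)
  obtain ⟨ψ, hψ, hn⟩ := exists_extension_norm_eq p φ'
  refine ⟨ψ, ?_, fun x => ?_⟩
  · rw [hn]
    refine ContinuousLinearMap.opNorm_le_bound _ zero_le_one fun y => ?_
    calc ‖φ' y‖ = ‖φ (e.symm y)‖ := rfl
      _ ≤ ‖φ‖ * ‖e.symm y‖ := φ.le_opNorm _
      _ ≤ 1 * ‖y‖ := by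
        rw [e.symm.norm_map]
        gcongr
  · have := hψ (e x)
    have h2 : ((e x : p) : Y) = π x := rfl
    rw [h2] at this
    rw [this]
    show φ (e.symm (e x)) = φ x
    rw [e.symm_apply_apply]

theorem ent (hQR : S_QR) (hTO : S_TO) : S_ENT := by
  intro Γ A Y _ _ _ _ u hu π hπ σ α hαs hα m hm K h l hl hσK hadd heig g hg hLR
  by_contra hc
  obtain ⟨L, hL, hTO⟩ := hTO l hl
  have hmL : 0 < m * L := Nat.mul_pos hm hL
  -- phases
  have hph : ∀ j : ℕ, ∃ c : ℂ, ‖c‖ = 1 ∧ (α^[j]) (u g : A) = c • (u ((σ^[j]) g) : A) := by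
    intro j
    induction j with
    | zero => exact ⟨1, norm_one, by rw [one_smul]; rfl⟩
    | succ j ih =>
      obtain ⟨c, hc1, hc2⟩ := ih
      obtain ⟨d, hd1, hd2⟩ := hα ((σ^[j]) g)
      refine ⟨c * d, by rw [norm_mul, hc1, hd1, one_mul], ?_⟩
      rw [Function.iterate_succ_apply', Function.iterate_succ_apply', hc2, hαs, hd2, smul_smul]
  choose p hp1 hp2 using hph
  -- the orbit stays in K
  have hKi : ∀ i : ℕ, (σ^[m * i]) g ∈ K ∧ h ((σ^[m * i]) g) = l ^ i * h g := by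
    intro i
    induction i with
    | zero => exact ⟨hg, by simp⟩
    | succ i ih =>
      have h1 : (σ^[m * (i + 1)]) g = (σ^[m]) ((σ^[m * i]) g) := by
        rw [← Function.iterate_add_apply]
        congr 2
        ring
      rw [h1]
      exact ⟨hσK _ ih.1, by rw [heig _ ih.1, ih.2]; ring⟩
  obtain ⟨n, hn, k, hk, φ, ψ, hφ, hψ, hap⟩ := hLR (1 / 4) (by norm_num) (1 / (64 * (m * L : ℕ)))
    (by positivity) (100 * (m * L))
  set N := n / (m * L) with hN
  have hN1 : 100 ≤ N := by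
    rw [hN, Nat.le_div_iff_mul_le hmL]
    exact hn
  have hN2 : ∀ i < N, m * L * i < n := fun i hi => by
    have h1 : m * L * N ≤ n := Nat.mul_div_le n (m * L)
    have h2 : m * L * (i + 1) ≤ m * L * N := Nat.mul_le_mul_left _ hi
    have h3 : m * L * i < m * L * (i + 1) := Nat.mul_lt_mul_of_pos_left (Nat.lt_succ_self i) hmL
    omega
  have hN3 : n < m * L * (N + 1) := by
    have := Nat.lt_mul_div_succ n hmL
    exact this
  have hub : ∀ x : Γ, ‖(u x : A)‖ ≤ 1 := fun x => by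
    rcases subsingleton_or_nontrivial A with hs | hs
    · rw [Subsingleton.elim (u x : A) 0, norm_zero]
      exact zero_le_one
    · exact (CStarRing.norm_coe_unitary (u x)).le
  have key := hQR k N (fun i => φ ((α^[m * L * i]) (u g : A))) (1 / 4) (by norm_num)
    (fun i _ => (hφ _).trans (by rw [hp2, norm_smul, hp1, one_mul]; exact hub _)) ?_
  · have h1 : (k : ℝ) ≤ Real.exp ((N + 1) / 64) := by
      refine hk.trans (Real.exp_le_exp.2 ?_)
      have h2 : (n : ℝ) ≤ (m * L : ℕ) * ((N : ℝ) + 1) := by exact_mod_cast hN3.le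
      have h3 : (0 : ℝ) < (m * L : ℕ) := by exact_mod_cast hmL
      rw [one_div_mul_eq_div, div_le_div_iff₀ (by positivity) (by norm_num)]
      nlinarith
    have h2 : Real.exp ((N : ℝ) * (1 / 4) ^ 2 / 2) =
        Real.exp (((N : ℝ) + 1) / 64) * Real.exp (((N : ℝ) - 1) / 64) := by
      rw [← Real.exp_add]
      congr 1
      ring
    rw [h2] at key
    have h3 : Real.exp (((N : ℝ) + 1) / 64) * Real.exp (((N : ℝ) - 1) / 64) ≤
        Real.exp (((N : ℝ) + 1) / 64) * 2 := by linarith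
    have h4 := le_of_mul_le_mul_left h3 (Real.exp_pos _)
    have h5 := Real.add_one_le_exp (((N : ℝ) - 1) / 64)
    have h6 : (100 : ℝ) ≤ N := by exact_mod_cast hN1
    linarith
  · intro s hs
    obtain ⟨z, hz⟩ := hTO (h g) hc N (fun i => (s i : ℂ) * p (m * L * i)) (fun i => by
      rw [norm_mul, hp1, mul_one, Complex.norm_real]
      rcases hs i with h | h <;> rw [h] <;> simp)
    obtain ⟨ρ, hρ1, hρ2⟩ := st Γ A u hu K (fun x => ex ((z * h x).re))
      (fun x hx y hy => by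
        show ex _ = ex _ * ex _
        rw [hadd x hx y hy, mul_add, Complex.add_re, ex_add])
      (fun x _ => norm_ex _)
    obtain ⟨ρ', hρ'1, hρ'2⟩ := ext_contr π hπ ρ hρ1
    have e1 : ∀ i < N, 1 / 2 ≤ ((s i : ℂ) * ρ ((α^[m * L * i]) (u g : A))).re := by
      intro i hi
      have h1 := hz i hi
      have h2 := hKi (L * i)
      rw [← mul_assoc] at h2
      rw [hp2, map_smul, hρ2 _ h2.1, h2.2, smul_eq_mul, ← mul_assoc]
      have h3 : z * (l ^ (L * i) * h g) = z * l ^ (L * i) * h g := by ring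
      rw [h3]
      exact h1
    have e2 : ∀ i < N, 1 / 4 ≤ ((s i : ℂ) * ρ' (ψ (φ ((α^[m * L * i]) (u g : A))))).re := by
      intro i hi
      have h1 := e1 i hi
      have h2 := hap (m * L * i) (hN2 i hi)
      have h3 : ‖ρ' (ψ (φ ((α^[m * L * i]) (u g : A)))) - ρ ((α^[m * L * i]) (u g : A))‖ ≤ 1 / 4 := by
        rw [← hρ'2, ← map_sub]
        calc _ ≤ ‖ρ'‖ * ‖ψ (φ ((α^[m * L * i]) (u g : A))) - π ((α^[m * L * i]) (u g : A))‖ :=
              ρ'.le_opNorm _
          _ ≤ 1 * (1 / 4) := by gcongr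
          _ = 1 / 4 := one_mul _
      have hs1 : ‖(s i : ℂ)‖ = 1 := by
        rw [Complex.norm_real]
        rcases hs i with h | h <;> rw [h] <;> simp
      have h4 : ((s i : ℂ) * ρ ((α^[m * L * i]) (u g : A))).re -
          ((s i : ℂ) * ρ' (ψ (φ ((α^[m * L * i]) (u g : A))))).re ≤ 1 / 4 := by
        rw [← Complex.sub_re, ← mul_sub]
        refine (Complex.re_le_norm _).trans ?_
        rw [norm_mul, hs1, one_mul, norm_sub_rev]
        exact h3
      linarith
    have e3 : (∑ i ∈ range N, (s i : ℂ) * ρ' (ψ (φ ((α^[m * L * i]) (u g : A))))) =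
        ρ' (ψ (∑ i ∈ range N, (s i : ℂ) • φ ((α^[m * L * i]) (u g : A)))) := by
      rw [map_sum, map_sum]
      refine Finset.sum_congr rfl fun i _ => ?_
      rw [map_smul, map_smul, smul_eq_mul]
    calc 1 / 4 * (N : ℝ) = ∑ i ∈ range N, (1 / 4 : ℝ) := by
          rw [Finset.sum_const, Finset.card_range, nsmul_eq_mul, mul_comm]
      _ ≤ ∑ i ∈ range N, ((s i : ℂ) * ρ' (ψ (φ ((α^[m * L * i]) (u g : A))))).re :=
          Finset.sum_le_sum fun i hi => e2 i (Finset.mem_range.1 hi)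
      _ = (∑ i ∈ range N, (s i : ℂ) * ρ' (ψ (φ ((α^[m * L * i]) (u g : A))))).re := by
          rw [Complex.re_sum]
      _ ≤ ‖ρ' (ψ (∑ i ∈ range N, (s i : ℂ) • φ ((α^[m * L * i]) (u g : A))))‖ := by
          rw [e3]
          exact Complex.re_le_norm _
      _ ≤ ‖ρ'‖ * ‖ψ (∑ i ∈ range N, (s i : ℂ) • φ ((α^[m * L * i]) (u g : A)))‖ := ρ'.le_opNorm _
      _ ≤ 1 * ‖∑ i ∈ range N, (s i : ℂ) • φ ((α^[m * L * i]) (u g : A))‖ := by
          gcongr
          exact hψ _
      _ = _ := one_mul _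

end Pool.Agent.P8H24.PG
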