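import Mathlib
import Pool.Agent.Helper611.PcFit

/-!
# Project PG: Möbius disjointness for all zero entropy automorphisms of the C*-algebras of virtually
polycyclic groups (MP_7a8f48_an): definitions and the statements of the packages

Main idea: if `ht(α) = 0` then `σ` has no expanding additive eigenfunction `h : K → ℂ` on an
invariant subgroup `K` (packages QR, TO, ST, ENT); hence some power of `σ` acts unipotently on the
factors of the derived series of a solvable characteristic subgroup of finite index (KR, GR1), hence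
the orbits lie in nilpotent groups (GR2, GR3), and `NilpotentUnitaries` applies.
-/

set_option autoImplicit false

open Finset Filter Topology
open scoped commutatorElement

namespace Pool.Agent.P8H24.PG

open Pool.Agent.Helper611.PcGrp Pool.Agent.Helper611.PcFit

/-- the algebra `M_k` with the operator norm -/
abbrev Mk (k : ℕ) : Type := EuclideanSpace ℂ (Fin k) →L[ℂ] EuclideanSpace ℂ (Fin k)

/-! ### Analysis -/

/-- Package QR. If all signed sums of `n` contractions of `M_k` have norm at least `c n`, then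
`2 k ≥ exp(n c² / 2)`.

Proof. For a sign vector `s` (say `s : Fin n → Bool` or `Fin n → Fin 2`, average `E` over all `2ⁿ`)
let `X_s = Σ s_j T_j`. For each finite set `S` of indices put `s^S = ∏_{j ∈ S} s_j`; claim: for all
`A` in `M_k` and `p`, `|E s^S Tr(A (X_s* X_s)^p)| ≤ k ‖A‖ E s^S (Σ s_j)^(2p)`. Induction on `p`:
`s^S Tr(A X_s* X_s B) = Σ_{i,j} s^(S Δ {i} Δ {j}) Tr((A T_i* T_j) B)`; for `p = 0` `|Tr A| ≤ k ‖A‖`
and `E s^S ∈ {0, 1}`. With `A = 1`, `S = ∅`: `(c n)^(2p) ≤ ‖X_s‖^(2p) = ‖(X_s* X_s)^p‖ ≤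
Tr (X_s* X_s)^p`, so `(c n)^(2p) ≤ k E (Σ s_j)^(2p)`. Multiply by `c^(2p)/(2p)!` and sum over `p`:
`cosh(c² n) ≤ k E cosh(c Σ s_j) = k cosh(c)^n ≤ k exp(n c²/2)` (`Real.cosh_le_exp_half_sq`), and
`cosh x ≥ exp(x)/2`. -/
def S_QR : Prop :=
  ∀ (k n : ℕ) (T : ℕ → Mk k) (c : ℝ), 0 < c → (∀ j < n, ‖T j‖ ≤ 1) →
    (∀ s : ℕ → ℝ, (∀ j, s j = 1 ∨ s j = -1) → c * n ≤ ‖∑ j ∈ range n, (s j : ℂ) • T j‖) →
    Real.exp (n * c ^ 2 / 2) ≤ 2 * k

/-- Package TO. For `|l| > 1` there is a step `L` such that the numbers `e(Re(z l^(Lj) c))`,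
`j < n`, can be brought within `60` degrees of arbitrary targets.

Proof. Take `L ≥ 1` with `|l|^L ≥ 7`, `z = Σ_{i<n} s_i l^(-Li) / c` with `s_i` in `[0,1)` real. Then
`Re(z l^(Lj) c) = s_j + Σ_{i<j} s_i Re(l^(L(j-i))) + Σ_{j<i<n} s_i Re(l^(-L(i-j)))`; the last sum is
at most `Σ_{m≥1} 7^(-m) = 1/6` in absolute value, and `s_j` is chosen (strong recursion) such that
`s_j + Σ_{i<j} s_i Re(l^(L(j-i)))` is the argument of the target modulo one;
`cos x ≥ 1/2` for `|x| ≤ π/3`. -/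
def S_TO : Prop :=
  ∀ l : ℂ, 1 < ‖l‖ → ∃ L : ℕ, 1 ≤ L ∧ ∀ (c : ℂ), c ≠ 0 → ∀ (n : ℕ) (t : ℕ → ℂ), (∀ j, ‖t j‖ = 1) →
    ∃ z : ℂ, ∀ j < n,
      1 / 2 ≤ (t j * Complex.exp (2 * Real.pi * Complex.I * ((z * l ^ (L * j) * c).re : ℝ))).re

/-- `u` makes `A` the full group C*-algebra of `Γ`: the `u g` span a dense subspace and each unitary
representation of `Γ` extends to `A` -/
structure IsGroupAlgebra {Γ A : Type} [Group Γ] [CStarAlgebra A] (u : Γ →* unitary A) : Prop where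
  dense : (Submodule.span ℂ (Set.range fun g => (u g : A))).topologicalClosure = ⊤
  lift : ∀ (H : Type) [NormedAddCommGroup H] [InnerProductSpace ℂ H] [CompleteSpace H]
    (v : Γ →* unitary (H →L[ℂ] H)), ∃ π : A →⋆ₐ[ℂ] (H →L[ℂ] H), ∀ g, π (u g) = v g

/-- Package ST (helper24). Characters of subgroups extend to contractive functionals. -/
def S_ST : Prop :=
  ∀ (Γ A : Type) [Group Γ] [CStarAlgebra A] (u : Γ →* unitary A), IsGroupAlgebra u →
    ∀ (K : Subgroup Γ) (χ : Γ → ℂ), (∀ x ∈ K, ∀ y ∈ K, χ (x * y) = χ x * χ y) →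
    (∀ x ∈ K, ‖χ x‖ = 1) → ∃ ρ : A →L[ℂ] ℂ, ‖ρ‖ ≤ 1 ∧ ∀ x ∈ K, ρ (u x : A) = χ x

/-! ### Arithmetic -/

/-- Package KR (Kronecker). An automorphism `f` of a finitely generated abelian group is either
quasi-unipotent or has an additive eigenfunction with values in `ℂ` and an eigenvalue of modulus
larger than one.

Proof. `W = Hom(M, ℂ)` (additive maps) is a finite-dimensional complex space with the automorphism
`f* h = h ∘ f`. Its eigenvalues `l ≠ 0` are the complex roots of the monic integer polynomial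
charpoly of `f` on the free part `M / torsion` (or: of any monic integer polynomial `P` with
`P(f) = 0` on `M/torsion` which is the charpoly; all roots of the charpoly are eigenvalues of `f*`).
If some root has `|l| > 1`, an eigenvector `h` of `f*` is as required. If not, the Mahler measure of
the charpoly is one, so all roots are roots of unity
(`Polynomial.pow_eq_one_of_mahlerMeasure_eq_one`, or
`NumberField.Embeddings.pow_eq_one_of_norm_le_one`); so for some `m > 0` all eigenvalues of `(f*)^m`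
are one, `((f*)^m - 1)^k = 0` on `W`, so `(f^m - 1)^k` maps `M` to the intersection of the kernels
of all `h`, i.e. to the torsion subgroup `T`, which is finite. Some `f^m'` is the identity on `T`;
then `(f^(m m') - 1)^(k+1) = 0`. -/
def S_KR : Prop :=
  ∀ (M : Type) [AddCommGroup M] [Module.Finite ℤ M] (f : M ≃+ M),
    (∃ m : ℕ, 0 < m ∧ ∃ k : ℕ, ∀ x : M, (fun y : M => (f^[m]) y - y)^[k] x = 0) ∨
    (∃ l : ℂ, 1 < ‖l‖ ∧ ∃ h : M →+ ℂ, h ≠ 0 ∧ ∀ x, h (f x) = l * h x)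

/-! ### Groups -/

/-- the difference map `x ↦ x⁻¹ σᵐ(x)` -/
def diff {Γ : Type} [Group Γ] (σ : Γ →* Γ) (m : ℕ) (h : Γ) : Γ := h⁻¹ * (σ^[m]) h

/-- there is no expanding additive eigenfunction on a `σ`-invariant subgroup -/
def NoExpansion {Γ : Type} [Group Γ] (σ : Γ ≃* Γ) : Prop :=
  ∀ (K : Subgroup Γ) (h : Γ → ℂ) (l : ℂ), 1 < ‖l‖ → (∀ x, σ x ∈ K ↔ x ∈ K) →
    (∀ x ∈ K, ∀ y ∈ K, h (x * y) = h x + h y) → (∀ x ∈ K, h (σ x) = l * h x) → ∀ x ∈ K, h x = 0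

/-- a finite chain of `σ`-invariant normal subgroups `⊤ = N 0 ≥ N 1 ≥ … ≥ N l = ⊥` such that
`x⁻¹ σᵐ(x) ∈ N 1` for all `x`, and for `1 ≤ i < l` the factor `N i / N (i+1)` is abelian and some
iterate of `x ↦ x⁻¹ σᵐ(x)` maps `N i` to `N (i+1)` -/
structure GoodChain {Γ : Type} [Group Γ] (σ : Γ →* Γ) (m : ℕ) (N : ℕ → Subgroup Γ) (l : ℕ) : Prop where
  normal : ∀ i, (N i).Normal
  inv : ∀ i, ∀ x ∈ N i, σ x ∈ N i
  zero : N 0 = ⊤
  last : N l = ⊥
  anti : ∀ i, N (i + 1) ≤ N i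
  first : ∀ x, diff σ m x ∈ N 1
  comm : ∀ i, 1 ≤ i → ⁅N i, N i⁆ ≤ N (i + 1)
  nil : ∀ i, 1 ≤ i → ∃ k : ℕ, ∀ x ∈ N i, (diff σ m)^[k] x ∈ N (i + 1)

/-- Package GR1 (may assume KR). A virtually solvable group all of whose subgroups are finitely
generated, with an automorphism `σ` without expanding additive eigenfunctions, has a good chain.

Proof. `Helper611.PcGrp.charCore` gives a characteristic subgroup `C ≤ H` of finite index, so `C` is
solvable; `N 0 = ⊤`, `N (i+1)` = the `i`-th derived subgroup of `C` (as subgroups of `Γ`), which is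
characteristic, so `σ (N i) = N i`. Some `σ^m₀` induces the identity on the finite group `Γ / C`
(`σ` permutes the finite set of cosets). For `i ≥ 1` the factor `M = N i / N (i+1)` is a finitely
generated abelian group (`MaxC`), `f` = the automorphism induced by `σ`; an additive `h : M → ℂ` with
`h f = l h` gives a function on `N i` as in `NoExpansion` (`K = N i`), so it is zero; by KR there is
`m_i > 0` with `(f^(m_i) - 1)^k = 0`. Take `m = m₀ ∏ m_i` (`f^(ab) - 1` is a multiple of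
`f^a - 1`, and for the first condition `x⁻¹ σ^(m₀ b)(x) ∈ C`). -/
def S_GR1 : Prop :=
  ∀ (Γ : Type) [Group Γ], MaxC Γ → (∃ H : Subgroup Γ, H.FiniteIndex ∧ Group.IsSolvable H) →
    ∀ σ : Γ ≃* Γ, NoExpansion σ →
      ∃ m : ℕ, 0 < m ∧ ∃ (N : ℕ → Subgroup Γ) (l : ℕ), GoodChain σ.toMonoidHom m N l

/-- Package GR2. In a group `S` all of whose subgroups are finitely generated let
`⊤ = N 0 ≥ … ≥ N l = ⊥` be normal subgroups and `a` an element with `[S, a] ⊆ N 1`, which acts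
nilpotently on the abelian factors `N i / N (i+1)`, `i ≥ 1`. Then `a` lies in a nilpotent normal
subgroup of `S`.

Proof. Use `fit`, `fit_adm`, `fit_of_normal` of `Helper611.PcFit`: `a ∈ fit K'`, `K' ≤ K`, `K`
normalises `K'` imply `a ∈ fit K`. Start with `K = ⟨a⟩ = ⟨a⟩ N l`. For `1 ≤ i < l` go from `⟨a⟩ N (i+1)`
to `⟨a⟩ N i` through the subgroups `⟨a⟩ R_j`, `R_j = {x ∈ N i : D^j x ∈ N (i+1)}`, where
`D x = x⁻¹ a x a⁻¹` is a homomorphism modulo `N (i+1)`: `R_0 = N (i+1)`, `R_k = N i` and `⟨a⟩ R_j` is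
normalised by `⟨a⟩ R_(j+1)`, as `y⁻¹ a y = D y a`. Last step: `⟨a⟩ N 1` is normal in `S`. -/
def S_GR2 : Prop :=
  ∀ (S : Type) [Group S], MaxC S → ∀ (a : S) (N : ℕ → Subgroup S) (l : ℕ), 1 ≤ l →
    (∀ i, (N i).Normal) → N 0 = ⊤ → N l = ⊥ → (∀ i, N (i + 1) ≤ N i) →
    (∀ x, x⁻¹ * (a * x * a⁻¹) ∈ N 1) → (∀ i, 1 ≤ i → ⁅N i, N i⁆ ≤ N (i + 1)) →
    (∀ i, 1 ≤ i → ∃ k : ℕ, ∀ x ∈ N i, (fun y => y⁻¹ * (a * y * a⁻¹))^[k] x ∈ N (i + 1)) →
    ∃ F : Subgroup S, F.Normal ∧ Group.IsNilpotent F ∧ a ∈ F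

/-- Package MAX. The semidirect product with `ℤ` of a group all of whose subgroups are finitely
generated has this property. (`P ∩ Γ` is finitely generated and the image of `P` in `ℤ` is cyclic.) -/
def S_MAX : Prop :=
  ∀ (Γ : Type) [Group Γ], MaxC Γ → ∀ φ : Multiplicative ℤ →* MulAut Γ,
    MaxC (Γ ⋊[φ] Multiplicative ℤ)

/-- Package GR3 (may assume GR2 and MAX). With a good chain, some iterate of `D x = x⁻¹ σᵐ(x)` is
trivial and for each `g` the group generated by `D g`, `D² g`, ... is nilpotent.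

Proof. The first part follows from the chain. `S = Γ ⋊ ℤ` where the generator `a` of `ℤ` acts as `σᵐ`;
apply GR2 to `a` and the chain `⊤, N 1, …, N l = ⊥` (images in `S`; `N 0` replaced by `⊤`;
`[S, a] ⊆ N 1` since modulo `Γ` everything commutes with `a`: `x = γ aⁿ` gives
`x⁻¹ a x a⁻¹ = a⁻ⁿ (γ⁻¹ a γ a⁻¹) aⁿ`): `a ∈ F`; `D g = g⁻¹ a g a⁻¹ ∈ F`, so the group generated by the
`Dⁱ g`, `i ≥ 1`, embeds in `F`. If `l = 0` then `Γ` is trivial. -/
def S_GR3 : Prop :=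
  ∀ (Γ : Type) [Group Γ], MaxC Γ → ∀ (σ : Γ ≃* Γ) (m : ℕ) (N : ℕ → Subgroup Γ) (l : ℕ),
    GoodChain σ.toMonoidHom m N l →
    (∃ k : ℕ, ∀ g, (diff σ.toMonoidHom m)^[k] g = 1) ∧
    ∀ g, Group.IsNilpotent
      (Subgroup.closure {x : Γ | ∃ i : ℕ, x = (diff σ.toMonoidHom m)^[i + 1] g})

/-! ### Entropy -/

/-- `x 0, …, x (n-1)` are approximated within `δ` through `M_k` by linear contractions -/
def CApprox {X Y : Type} [NormedAddCommGroup X] [NormedSpace ℂ X] [NormedAddCommGroup Y]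
    [NormedSpace ℂ Y] (π : X →L[ℂ] Y) (n : ℕ) (x : ℕ → X) (δ : ℝ) (k : ℕ) : Prop :=
  ∃ (φ : X →ₗ[ℂ] Mk k) (ψ : Mk k →ₗ[ℂ] Y), (∀ a, ‖φ a‖ ≤ ‖a‖) ∧ (∀ b, ‖ψ b‖ ≤ ‖b‖) ∧
    ∀ j < n, ‖ψ (φ (x j)) - π (x j)‖ ≤ δ

/-- the orbit of `x` has subexponential contractive approximation rank, along some `n → ∞` -/
def LowRank {X Y : Type} [NormedAddCommGroup X] [NormedSpace ℂ X] [NormedAddCommGroup Y]
    [NormedSpace ℂ Y] (π : X →L[ℂ] Y) (T : X → X) (x : X) : Prop :=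
  ∀ δ : ℝ, 0 < δ → ∀ ε : ℝ, 0 < ε → ∀ n₀ : ℕ, ∃ n ≥ n₀, ∃ k : ℕ, (k : ℝ) ≤ Real.exp (ε * n) ∧
    CApprox π n (fun j => (T^[j]) x) δ k

/-- Package ENT (helper24; from QR, TO, ST). -/
def S_ENT : Prop :=
  ∀ (Γ A Y : Type) [Group Γ] [CStarAlgebra A] [NormedAddCommGroup Y] [NormedSpace ℂ Y]
    (u : Γ →* unitary A), IsGroupAlgebra u → ∀ (π : A →L[ℂ] Y), (∀ a, ‖π a‖ = ‖a‖) →
    ∀ (σ : Γ → Γ) (α : A → A), (∀ c : ℂ, ∀ a, α (c • a) = c • α a) →
    (∀ g, ∃ c : ℂ, ‖c‖ = 1 ∧ α (u g) = c • (u (σ g) : A)) →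
    ∀ (m : ℕ), 0 < m → ∀ (K : Subgroup Γ) (h : Γ → ℂ) (l : ℂ), 1 < ‖l‖ →
    (∀ x ∈ K, (σ^[m]) x ∈ K) → (∀ x ∈ K, ∀ y ∈ K, h (x * y) = h x + h y) →
    (∀ x ∈ K, h ((σ^[m]) x) = l * h x) → ∀ g ∈ K, LowRank π α (u g : A) → h g = 0

end Pool.Agent.P8H24.PG
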