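import Pool.Agent.P8H24.PG.Core
import Pool.Agent.P8H24.PG.Asm
import Pool.Agent.P8H4.PG.Gr1

/-!
# Local quasi-unipotence on abelian sections from subexponential rank
-/

set_option autoImplicit false

open Finset Filter Topology
open scoped commutatorElement

namespace Pool.Agent.P8H24.PG

open Pool.Agent.Helper611.PcGrp Pool.Agent.P8H4.PG

section

variable {Γ A : Type} [Group Γ] [CStarAlgebra A]

/-- the trivial character of the group algebra -/
theorem triv_char {u : Γ →* unitary A} (hu : IsGroupAlgebra u) :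
    ∃ e : A →⋆ₐ[ℂ] ℂ, ∀ g, e (u g) = 1 := by
  obtain ⟨π, hπ⟩ := hu.lift ℂ 1
  have h1 : ∀ (T : ℂ →L[ℂ] ℂ) (z : ℂ), T z = z * T 1 := fun T z => by
    have := T.map_smul z 1
    rwa [smul_eq_mul, smul_eq_mul, mul_one] at this
  refine ⟨{ toFun := fun a => π a 1
            map_one' := by rw [map_one π]; rfl
            map_mul' := fun a b => by
              rw [map_mul]
              show π a (π b 1) = π a 1 * π b 1
              rw [h1 (π a), mul_comm]
            map_zero' := by rw [map_zero]; rfl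
            map_add' := fun a b => by rw [map_add]; rfl
            commutes' := fun r => by
              rw [AlgHomClass.commutes]
              show (algebraMap ℂ (ℂ →L[ℂ] ℂ) r) 1 = r
              rw [Algebra.algebraMap_eq_smul_one]
              show r • (1 : ℂ) = r
              rw [smul_eq_mul, mul_one]
            map_star' := fun a => by
              rw [map_star]
              show ContinuousLinearMap.adjoint (π a) 1 = star (π a 1)
              have h2 := ContinuousLinearMap.adjoint_inner_left (π a) (1 : ℂ) (1 : ℂ)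
              simp only [RCLike.inner_apply, map_one, one_mul, mul_one] at h2
              have h3 := congrArg star h2
              simpa using h3 }, fun g => ?_⟩
  show π (u g) 1 = 1
  rw [hπ]
  rfl

end

/-- the map from `Γ` to `K' / [K', K']`, for `K' ≤ K ≤ Γ` -/
noncomputable def qmap {Γ : Type} [Group Γ] (K : Subgroup Γ) (K' : Subgroup K) (x : Γ) : Mab K' :=
  open Classical in if hx : ∃ y : K', ((y : K) : Γ) = x then pr K' hx.choose else 0

theorem qmap_coe {Γ : Type} [Group Γ] (K : Subgroup Γ) (K' : Subgroup K) (y : K') :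
    qmap K K' ((y : K) : Γ) = pr K' y := by
  classical
  have hx : ∃ z : K', ((z : K) : Γ) = ((y : K) : Γ) := ⟨y, rfl⟩
  rw [qmap, dif_pos hx]
  congr 1
  exact Subtype.ext (Subtype.ext hx.choose_spec)

theorem lqu (hNF : S_NF) (hNF2 : S_NF2) (hDI : S_DI) {Γ A Y : Type} [Group Γ] [CStarAlgebra A]
    [NormedAddCommGroup Y] [NormedSpace ℂ Y] (u : Γ →* unitary A) (hu : IsGroupAlgebra u)
    (π : A →L[ℂ] Y) (hπ : ∀ a, ‖π a‖ = ‖a‖) (σ : Γ ≃* Γ) (α : A →⋆ₐ[ℂ] A)
    (hα : ∀ g, ∃ c : ℂ, ‖c‖ = 1 ∧ α (u g) = c • (u (σ g) : A))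
    (hLR : ∀ g, LowRank π α (u g : A)) {m : ℕ} (hm : 0 < m) (K : Subgroup Γ)
    (hK : ∀ x, (σ^[m]) x ∈ K ↔ x ∈ K) (K' : Subgroup K)
    (hK' : ∀ x, restr σ m K hK x ∈ K' ↔ x ∈ K') (x : K) (hx : x ∈ K') :
    ∃ m' : ℕ, 0 < m' ∧ ∃ k : ℕ, (diff (restr σ m K hK).toMonoidHom m')^[k] x ∈ ⁅K', K'⁆ := by
  classical
  obtain ⟨e, he⟩ := triv_char hu
  set τ := restr σ m K hK with hτ
  have hub : ∀ x : Γ, ‖(u x : A)‖ ≤ 1 := fun x => by
    rcases subsingleton_or_nontrivial A with hs | hs
    · rw [Subsingleton.elim (u x : A) 0, norm_zero]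
      exact zero_le_one
    · exact (CStarRing.norm_coe_unitary (u x)).le
  -- phases
  have hph : ∀ (g : Γ) (j : ℕ), ∃ c : ℂ, ‖c‖ = 1 ∧
      (α^[j]) (u g : A) = c • (u ((σ^[j]) g) : A) := by
    intro g j
    induction j with
    | zero => exact ⟨1, norm_one, by rw [one_smul]; rfl⟩
    | succ j ih =>
      obtain ⟨c, hc1, hc2⟩ := ih
      obtain ⟨d, hd1, hd2⟩ := hα ((σ^[j]) g)
      refine ⟨c * d, by rw [norm_mul, hc1, hd1, one_mul], ?_⟩
      rw [Function.iterate_succ_apply', Function.iterate_succ_apply', hc2, map_smul, hd2, smul_smul]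
  choose p hp1 hp2 using hph
  have hpe : ∀ g j, p g j = e ((α^[j]) (u g : A)) := fun g j => by
    rw [hp2, map_smul, he, smul_eq_mul, mul_one]
  have hpm : ∀ g h j, p (g * h) j = p g j * p h j := fun g h j => by
    have h1 : (α^[j]) ((u (g * h) : A)) = (α^[j]) (u g : A) * (α^[j]) (u h : A) := by
      rw [map_mul, Submonoid.coe_mul, iterate_map_mul]
    rw [hpe, hpe, hpe, h1, map_mul]
  have hp1' : ∀ j, p 1 j = 1 := fun j => by
    have h1 := hpm 1 1 j
    rw [mul_one] at h1
    have h2 : p 1 j ≠ 0 := by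
      intro h
      have := hp1 1 j
      rw [h, norm_zero] at this
      exact zero_ne_one this
    exact (mul_eq_left₀ h2).1 h1.symm
  let F : ℕ → (Γ →* ℂ) := fun j => { toFun := fun g => p g j, map_one' := hp1' j, map_mul' := fun g h => hpm g h j }
  -- the orbits in K'
  have hsub : ∀ (i : ℕ) (y : K'), ((((res τ K' hK')^[i]) y : K) : Γ) = (σ^[m * i]) ((y : K) : Γ) := by
    intro i
    induction i with
    | zero => intro y; rfl
    | succ i ih =>
      intro y
      rw [Function.iterate_succ_apply', mul_add, mul_one, add_comm (m * i) m,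
        Function.iterate_add_apply, ← ih]
      rfl
  have hpr : ∀ (i : ℕ) (y : K'), pr K' (((res τ K' hK')^[i]) y) =
      ((fab τ K' hK')^[i]) (pr K' y) := by
    intro i
    induction i with
    | zero => intro y; rfl
    | succ i ih =>
      intro y
      rw [Function.iterate_succ_apply', Function.iterate_succ_apply', ← ih, fab_pr]
  have hq : ∀ x ∈ K'.map K.subtype, ∀ y ∈ K'.map K.subtype,
      qmap K K' (x * y) = qmap K K' x + qmap K K' y := by
    rintro _ ⟨x, hx, rfl⟩ _ ⟨y, hy, rfl⟩
    have h1 := qmap_coe K K' (⟨x, hx⟩ * ⟨y, hy⟩)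
    have h2 := qmap_coe K K' ⟨x, hx⟩
    have h3 := qmap_coe K K' ⟨y, hy⟩
    rw [pr_mul] at h1
    rw [← h2, ← h3] at h1
    exact h1
  have key := hDI (Mab K') (fab τ K' hK') ?_ ?_ (pr K' ⟨x, hx⟩)
  · obtain ⟨m', hm', k, hk⟩ := key
    obtain ⟨y, hy1, hy2⟩ := diff_pr τ K' hK' m' k ⟨x, hx⟩
    refine ⟨m', hm', k, ?_⟩
    rw [hk] at hy2
    have h3 := pr_eq_zero K' y hy2
    rw [hy1] at h3
    exact h3
  · intro L w hL hw
    obtain ⟨y, rfl⟩ := pr_surj K' w
    refine core π hπ α (u ((y : K) : Γ)) (hLR _) (fun j => ?_) (m * L) (Nat.mul_pos hm hL)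
      fun n s hs => ?_
    · rw [hp2, norm_smul, hp1, one_mul]
      exact hub _
    obtain ⟨ρ, hρ1, hρ2⟩ := hNF Γ A (Mab K') u hu (K'.map K.subtype) (qmap K K') hq n
      (fun i => ((((res τ K' hK')^[L * i]) y : K) : Γ))
      (fun i => ⟨_, (((res τ K' hK')^[L * i]) y).2, rfl⟩)
      (fun a ha h => by
        refine hw n a ha ?_
        rw [← h]
        refine Finset.sum_congr rfl fun j _ => ?_
        rw [qmap_coe, hpr])
      (fun i => (s i : ℂ) * p ((y : K) : Γ) (m * L * i))
      (fun i => by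
        rw [norm_mul, hp1, mul_one, Complex.norm_real]
        rcases hs i with h | h <;> rw [h] <;> simp)
    refine ⟨ρ, hρ1, fun i hi => ?_⟩
    have h1 := hρ2 i hi
    rw [hp2, map_smul, smul_eq_mul, ← mul_assoc]
    rw [hsub, ← mul_assoc] at h1
    exact h1
  · rintro w ⟨hw2, hw⟩
    obtain ⟨y, rfl⟩ := pr_surj K' w
    have hpm1 : ∀ j, p ((y : K) : Γ) j = 1 ∨ p ((y : K) : Γ) j = -1 := by
      intro j
      have h1 : pr K' (y * y) = 0 := by
        rw [pr_mul, ← hw2, two_smul]
      have h2 := pr_eq_zero K' (y * y) h1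
      have h3 : (⁅K', K'⁆ : Subgroup K) ≤ (((F j).comp K.subtype).toHomUnits).ker :=
        (Subgroup.commutator_mono le_top le_top).trans (Abelianization.commutator_subset_ker _)
      have h4 := h3 h2
      rw [MonoidHom.mem_ker] at h4
      have h5 : p (((y : K) : Γ) * ((y : K) : Γ)) j = 1 := by
        have := congrArg (fun z : ℂˣ => (z : ℂ)) h4
        exact this
      rw [hpm] at h5
      exact mul_self_eq_one_iff.1 h5
    refine core π hπ α (u ((y : K) : Γ)) (hLR _) (fun j => ?_) m hm fun n s hs => ?_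
    · rw [hp2, norm_smul, hp1, one_mul]
      exact hub _
    obtain ⟨ρ, hρ1, hρ2⟩ := hNF2 Γ A (Mab K') u hu (K'.map K.subtype) (qmap K K') hq n
      (fun i => ((((res τ K' hK')^[i]) y : K) : Γ))
      (fun i => ⟨_, (((res τ K' hK')^[i]) y).2, rfl⟩)
      (fun i => by
        rw [qmap_coe, hpr]
        have h1 : ∀ z : Mab K', (2 : ℤ) • z = 0 → (2 : ℤ) • (fab τ K' hK') z = 0 := fun z hz => by
          rw [← map_zsmul, hz, map_zero]
        induction i with
        | zero => exact hw2
        | succ i ih =>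
          rw [Function.iterate_succ_apply']
          exact h1 _ ih)
      (fun a ha h => by
        refine hw n a ha ?_
        rw [← h]
        refine Finset.sum_congr rfl fun j _ => ?_
        rw [qmap_coe, hpr])
      (fun i => (s i : ℂ) * p ((y : K) : Γ) (m * i))
      (fun i => by
        rcases hs i with h | h <;> rcases hpm1 (m * i) with h' | h' <;> rw [h, h'] <;> simp)
    refine ⟨ρ, hρ1, fun i hi => ?_⟩
    have h1 := hρ2 i hi
    rw [hp2, map_smul, smul_eq_mul, ← mul_assoc]
    rw [hsub] at h1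
    exact h1

end Pool.Agent.P8H24.PG
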