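import Pool.Agent.P8H24.PG.Stm
import Pool.Agent.H697R3.NSPD

/-!
# Package ST: characters of subgroups extend to contractive functionals
-/

set_option autoImplicit false

open Finset Filter Topology
open scoped InnerProductSpace ComplexOrder

namespace Pool.Agent.P8H24.PG

theorem st : S_ST := by
  classical
  intro Γ A _ _ u hu K χ hχ hχ1
  have hone : χ 1 = 1 := by
    have h1 := hχ 1 K.one_mem 1 K.one_mem
    rw [mul_one] at h1
    have h2 : χ 1 ≠ 0 := by
      intro h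
      have := hχ1 1 K.one_mem
      rw [h, norm_zero] at this
      exact zero_ne_one this
    exact (mul_eq_left₀ h2).1 h1.symm
  have hinv : ∀ x ∈ K, χ x⁻¹ = star (χ x) := by
    intro x hx
    have h1 := hχ x hx x⁻¹ (K.inv_mem hx)
    rw [mul_inv_cancel, hone] at h1
    have h2 : χ x * star (χ x) = 1 := by
      rw [Complex.star_def, Complex.mul_conj, Complex.normSq_eq_norm_sq, hχ1 x hx]
      norm_num
    have h3 : χ x ≠ 0 := by
      intro h
      rw [h, zero_mul] at h2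
      exact zero_ne_one h2
    exact mul_left_cancel₀ h3 (h1.symm.trans h2.symm)
  let o : Γ → Γ := fun j => (QuotientGroup.mk j : Γ ⧸ K).out
  have ho : ∀ j, (o j)⁻¹ * j ∈ K := fun j => by
    rw [← QuotientGroup.eq]
    exact Quotient.out_eq _
  let E := lp (fun _ : Γ ⧸ K => ℂ) 2
  let v : Γ → E := fun j => lp.single 2 (QuotientGroup.mk j : Γ ⧸ K) (χ ((o j)⁻¹ * j))
  let k : Matrix Γ Γ ℂ := fun i j => if i⁻¹ * j ∈ K then χ (i⁻¹ * j) else 0
  have hk : ∀ i j, k i j = ⟪v i, v j⟫_ℂ := by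
    intro i j
    show (if i⁻¹ * j ∈ K then χ (i⁻¹ * j) else 0) = _
    rw [lp.inner_single_left]
    by_cases hij : i⁻¹ * j ∈ K
    · rw [if_pos hij]
      have h1 : (QuotientGroup.mk i : Γ ⧸ K) = QuotientGroup.mk j := QuotientGroup.eq.2 hij
      have h2 : o i = o j := by
        show (QuotientGroup.mk i : Γ ⧸ K).out = (QuotientGroup.mk j : Γ ⧸ K).out
        rw [h1]
      have h3 : (v j : Γ ⧸ K → ℂ) (QuotientGroup.mk i) = χ ((o j)⁻¹ * j) := by
        rw [h1]
        exact lp.single_apply_self _ _ _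
      rw [h3, RCLike.inner_apply, ← Complex.star_def, ← hinv _ (ho i), ← h2, mul_comm,
        ← hχ _ (K.inv_mem (ho i)) _ (by rw [h2]; exact ho j)]
      congr 1
      group
    · rw [if_neg hij]
      have h1 : (QuotientGroup.mk i : Γ ⧸ K) ≠ QuotientGroup.mk j := fun h =>
        hij (QuotientGroup.eq.1 h)
      have h3 : (v j : Γ ⧸ K → ℂ) (QuotientGroup.mk i) = 0 :=
        lp.single_apply_ne _ _ _ h1
      rw [h3, inner_zero_right]
  have hps : k.PosSemidef := by
    refine ⟨?_, fun x => ?_⟩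
    · ext i j
      rw [Matrix.conjTranspose_apply, hk, hk, Complex.star_def, inner_conj_symm]
    · have h1 : (x.sum fun i xi => x.sum fun j xj => star xi * k i j * xj) =
          ⟪x.sum fun i xi => xi • v i, x.sum fun i xi => xi • v i⟫_ℂ := by
        simp only [Finsupp.sum]
        rw [sum_inner]
        refine Finset.sum_congr rfl fun i _ => ?_
        rw [inner_sum]
        refine Finset.sum_congr rfl fun j _ => ?_
        rw [inner_smul_left, inner_smul_right, hk, Complex.star_def]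
        ring
      rw [h1, inner_self_eq_norm_sq_to_K]
      have : (0 : ℂ) ≤ ((‖x.sum fun i xi => xi • v i‖ ^ 2 : ℝ) : ℂ) :=
        Complex.zero_le_real.2 (sq_nonneg _)
      simpa using this
  obtain ⟨H, i1, i2, i3, ϖ, w, hw, hϖ⟩ := H697R3.NS.gns_kernel (G := Γ) (X := Γ) k hps
    (fun g x y => by
      show (if (g * x)⁻¹ * (g * y) ∈ K then χ ((g * x)⁻¹ * (g * y)) else 0) = _
      have : (g * x)⁻¹ * (g * y) = x⁻¹ * y := by group
      rw [this])
  obtain ⟨π, hπ⟩ := hu.lift H ϖ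
  have hπn : ∀ a, ‖π a‖ ≤ ‖a‖ := fun a => NonUnitalStarAlgHom.norm_apply_le π a
  have hw1 : ‖w 1‖ = 1 := by
    have h1 := hw 1 1
    have h2 : k 1 1 = 1 := by
      show (if (1 : Γ)⁻¹ * 1 ∈ K then χ ((1 : Γ)⁻¹ * 1) else 0) = 1
      rw [inv_one, mul_one, if_pos K.one_mem, hone]
    have h3 : ‖w 1‖ ^ 2 = 1 := by
      rw [← inner_self_eq_norm_sq (𝕜 := ℂ), h1, h2, RCLike.one_re]
    exact (pow_eq_one_iff_of_nonneg (norm_nonneg _) two_ne_zero).1 h3
  let ρl : A →ₗ[ℂ] ℂ :=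
    { toFun := fun a => ⟪w 1, π a (w 1)⟫_ℂ
      map_add' := fun a b => by rw [map_add, add_apply, inner_add_right]
      map_smul' := fun c a => by
        rw [map_smul, smul_apply, inner_smul_right, RingHom.id_apply,
          smul_eq_mul] }
  have hb : ∀ a, ‖ρl a‖ ≤ 1 * ‖a‖ := fun a => by
    calc ‖ρl a‖ ≤ ‖w 1‖ * ‖π a (w 1)‖ := norm_inner_le_norm _ _
      _ ≤ ‖w 1‖ * (‖π a‖ * ‖w 1‖) := by gcongr; exact (π a).le_opNorm _
      _ ≤ 1 * ‖a‖ := by rw [hw1, mul_one]; gcongr; exact hπn a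
  refine ⟨ρl.mkContinuous 1 hb, LinearMap.mkContinuous_norm_le _ zero_le_one _, fun x hx => ?_⟩
  show ⟪w 1, π (u x) (w 1)⟫_ℂ = χ x
  rw [hπ, hϖ, hw]
  show (if (1 : Γ)⁻¹ * (x * 1) ∈ K then χ ((1 : Γ)⁻¹ * (x * 1)) else 0) = χ x
  rw [inv_one, one_mul, mul_one, if_pos hx]

end Pool.Agent.P8H24.PG
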