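import Pool.Agent.P8H24.PG.Stm

/-!
# Project PG, second part: ALL virtually solvable groups

The first part (virtually polycyclic groups) is complete. Here are the packages for arbitrary
virtually solvable groups `Γ` (no finiteness condition): if `ht(α) = 0` then `σ` acts locally
quasi-unipotently on `K / [K, K]` for each `σ`-invariant subgroup `K` (packages NF, NF2, RU, TOR, DI),
and this implies that all elements of `Γ` are of nilpotent type (ACT, STEP, SOL, VS).
-/

set_option autoImplicit false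

open Finset Filter Topology
open scoped commutatorElement

namespace Pool.Agent.P8H24.PG

open Pool.Agent.Helper611.PcGrp Pool.Agent.Helper611.PcFit

/-! ### Functionals -/

/-- Package NF. If the images `q (w j)` in the abelian group `M` satisfy no nontrivial relation with
coefficients in `{-2, …, 2}` then for all phases `c j` there is one contractive functional with
`Re (c j * ρ (u (w j))) ≥ 1/2` for all `j`.

Proof. `L = {x ∈ K : q x = 0}`. As in `PG/St.lean` (`H697R3.NS.gns_kernel` for the kernel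
`k x y = if x⁻¹ * y ∈ L then 1 else 0`, or the permutation representation on `ℓ²(Γ/L)`) there are a
unitary representation `π` of `Γ` and vectors `v x` with `⟪v x, v y⟫ = 1` if `x⁻¹ y ∈ L` and `0`
otherwise, `π g (v x) = v (g x)`. For `S ⊆ range n` choose `w_S ∈ K` with `q (w_S) = ∑_{j ∈ S} q (w j)`
and let `ξ = 2^(-n/2) ∑_S (∏_{j ∈ S} c j) v (w_S)`. The relations give `‖ξ‖ = 1` (the `q (w_S)` are
distinct) and `⟪ξ, π (w j) ξ⟫ = 2^(-n) ∑_{S ∌ j} conj (c j) = conj (c j) / 2`, because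
`q (w j) + q (w_S) = q (w_S')` only for `j ∉ S`, `S' = S ∪ {j}`. Take `ρ a = ⟪ξ, π a ξ⟫` (the
extension of `π` to `A`), as in `St.lean`. -/
def S_NF : Prop :=
  ∀ (Γ A M : Type) [Group Γ] [CStarAlgebra A] [AddCommGroup M] (u : Γ →* unitary A),
    IsGroupAlgebra u → ∀ (K : Subgroup Γ) (q : Γ → M),
    (∀ x ∈ K, ∀ y ∈ K, q (x * y) = q x + q y) → ∀ (n : ℕ) (w : ℕ → Γ), (∀ j, w j ∈ K) →
    (∀ a : ℕ → ℤ, (∀ j, |a j| ≤ 2) → ∑ j ∈ range n, a j • q (w j) = 0 → ∀ j < n, a j = 0) →
    ∀ c : ℕ → ℂ, (∀ j, ‖c j‖ = 1) →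
    ∃ ρ : A →L[ℂ] ℂ, ‖ρ‖ ≤ 1 ∧ ∀ j < n, 1 / 2 ≤ (c j * ρ (u (w j) : A)).re

/-- Package NF2 (same proof as NF; `⟪ξ, π (w j) ξ⟫ = c j`, as `q (w j) + q (w_S) = q (w_S')` exactly
for `S' = S Δ {j}` and `c j = ±1`; or: a character of the elementary abelian `2`-group generated by the
`q (w j)`, see `st`). -/
def S_NF2 : Prop :=
  ∀ (Γ A M : Type) [Group Γ] [CStarAlgebra A] [AddCommGroup M] (u : Γ →* unitary A),
    IsGroupAlgebra u → ∀ (K : Subgroup Γ) (q : Γ → M),
    (∀ x ∈ K, ∀ y ∈ K, q (x * y) = q x + q y) → ∀ (n : ℕ) (w : ℕ → Γ), (∀ j, w j ∈ K) →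
    (∀ j, (2 : ℤ) • q (w j) = 0) →
    (∀ a : ℕ → ℤ, (∀ j, a j = 0 ∨ a j = 1) → ∑ j ∈ range n, a j • q (w j) = 0 →
      ∀ j < n, a j = 0) →
    ∀ c : ℕ → ℂ, (∀ j, c j = 1 ∨ c j = -1) →
    ∃ ρ : A →L[ℂ] ℂ, ‖ρ‖ ≤ 1 ∧ ∀ j < n, 1 / 2 ≤ (c j * ρ (u (w j) : A)).re

/-! ### Abelian groups -/

/-- `x` is quasi-unipotent for `f` -/
def QUni {M : Type} [AddCommGroup M] (f : M ≃+ M) (x : M) : Prop :=
  ∃ m : ℕ, 0 < m ∧ ∃ k : ℕ, (fun y : M => (f^[m]) y - y)^[k] x = 0

/-- the `f`-orbit of `w`, in steps of `L`, satisfies no nontrivial relation with coefficients in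
`{-2, …, 2}` -/
def Dissociate {M : Type} [AddCommGroup M] (f : M ≃+ M) (L : ℕ) (w : M) : Prop :=
  ∀ (n : ℕ) (a : ℕ → ℤ), (∀ j, |a j| ≤ 2) → ∑ j ∈ range n, a j • (f^[L * j]) w = 0 →
    ∀ j < n, a j = 0

/-- `2 w = 0` and the `f`-orbit of `w` is independent over the field with two elements -/
def TwoFree {M : Type} [AddCommGroup M] (f : M ≃+ M) (w : M) : Prop :=
  (2 : ℤ) • w = 0 ∧ ∀ (n : ℕ) (a : ℕ → ℤ), (∀ j, a j = 0 ∨ a j = 1) →
    ∑ j ∈ range n, a j • (f^[j]) w = 0 → ∀ j < n, a j = 0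

/-- Package RU. A nonzero complex number `z` such that each `z^L` is a root of a nonzero polynomial
with coefficients in `{-2, …, 2}` is a root of unity.

Proof. All conjugates `φ z` (`φ` an embedding of `ℚ(z)`) have the same property, so `|φ z|^L ≤ 3` for
all `L` (a root `x` of such a polynomial has `|x| ≤ 3`), so `|φ z| ≤ 1`. `z` is integral: the leading
coefficient is `±1` or `±2`, so `2 z^L` is integral for all `L ≥ 1`; so `2 • Algebra.adjoin ℤ {z}` lies
in the ring of integers of `ℚ(z)`, which is a noetherian `ℤ`-module, so `Algebra.adjoin ℤ {z}` is a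
finitely generated `ℤ`-module and `z` is integral (`IsIntegral.of_mem_of_fg`). Now
`NumberField.Embeddings.pow_eq_one_of_norm_le_one`. -/
def S_RU : Prop :=
  ∀ z : ℂ, z ≠ 0 → (∀ L : ℕ, 1 ≤ L → ∃ Q : Polynomial ℤ, Q ≠ 0 ∧ (∀ i, |Q.coeff i| ≤ 2) ∧
    Polynomial.aeval (z ^ L) Q = 0) → ∃ n : ℕ, 0 < n ∧ z ^ n = 1

/-- Package TOR. If no element is `Dissociate` or `TwoFree`, all torsion elements are quasi-unipotent.

Proof. First `p x = 0`, `p` prime: for `p = 2` not `TwoFree`, for `p ≥ 3` not `Dissociate` with `L = 1`,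
gives a relation `∑_{j<n} a j • f^j x = 0` with some `a j ≢ 0 mod p`; with `d` the largest such index
`f^d x` lies in the (finite) `F_p`-span of the lower ones, so the orbit of `x` is finite and
`f^m x = x` for some `m > 0`. General `N`: induction, `N = p N'`: `N' x` is `p`-torsion,
`f^m (N' x) = N' x`, so `N' (f^m x - x) = 0`, `f^m x - x` is quasi-unipotent by induction, so `x` is
(`f^(m m') - 1` is a multiple of `f^m - 1` and of `f^m' - 1`). -/
def S_TOR : Prop :=
  ∀ (M : Type) [AddCommGroup M] (f : M ≃+ M), (∀ (L : ℕ) (w : M), 1 ≤ L → ¬ Dissociate f L w) →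
    (∀ w : M, ¬ TwoFree f w) → ∀ (N : ℕ) (x : M), 0 < N → N • x = 0 → QUni f x

/-- Package DI (may assume RU and TOR). If no element is `Dissociate` or `TwoFree`, all elements are
quasi-unipotent.

Proof. For `x : M` each `L ≥ 1` gives a nonzero `Q_L` with coefficients in `{-2, …, 2}` and
`Q_L(f^L) x = 0`. In `V = ℚ ⊗ M` (or: the ideal of the `R` in `ℚ[X]` such that some `N • R`,
`N ≥ 1`, is the image of a `P` in `ℤ[X]` with `P(f) x = 0`) let `P₀` be the minimal polynomial of `x`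
for `f`. All complex roots `z` of `P₀` are nonzero (`f` is bijective) and satisfy `Q_L(z^L) = 0`, so
they are roots of unity by RU; so `P₀` divides `(X^m - 1)^k` for some `m > 0`, `k`
(`Polynomial.map_dvd_map'`), so `N • (f^m - 1)^k x = 0` for some `N ≥ 1`, so `(f^m - 1)^k x` is
quasi-unipotent by TOR, so `x` is. -/
def S_DI : Prop :=
  ∀ (M : Type) [AddCommGroup M] (f : M ≃+ M), (∀ (L : ℕ) (w : M), 1 ≤ L → ¬ Dissociate f L w) →
    (∀ w : M, ¬ TwoFree f w) → ∀ x : M, QUni f x

/-! ### Groups -/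

/-- Package EXT. `MaxC` (all subgroups are finitely generated) is closed under extensions. -/
def S_EXT : Prop :=
  ∀ (S : Type) [Group S] (N : Subgroup S) [N.Normal], MaxC N → MaxC (S ⧸ N) → MaxC S

/-- Package ACT. Let the nilpotent group `P`, generated by a finite set `X`, act on the abelian group
`M`, such that for `x ∈ X` each `z : M` lies in a finitely generated subgroup invariant under `x` and
`x⁻¹`. Then each `z` lies in a finitely generated subgroup invariant under `P`.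

Proof. Call a subgroup `Q` of `P` good if each `z` lies in a finitely generated `Q`-invariant subgroup.
If `Q₁`, `Q₂` are good and `Q₁` is normal then `Q₁ Q₂` is good. Conjugates of good subgroups are good.
Induction on the nilpotency class `c` of `P`. For `c ≤ 1` `P` is the product of the `⟨x⟩`. For `c ≥ 2`
the normal closure `N_x` of `x` has class `≤ c - 1`: `N_x ≤ H = ⟨x⟩ [P, P]` and
`lowerCentralSeries H k ≤ lowerCentralSeries P (k+1)` for `k ≥ 1`; it is finitely generated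
(`Pool.Agent.H53R2.nil_maxC` in `Pool.Agent.H53R2.FinNil`), so by finitely many conjugates of `x`,
which are good; so `N_x` is good by induction, and `P` is the product of the normal subgroups `N_x`. -/
def S_ACT : Prop :=
  ∀ (P M : Type) [Group P] [AddCommGroup M] [DistribMulAction P M], Group.IsNilpotent P →
    ∀ X : Set P, X.Finite → Subgroup.closure X = ⊤ →
    (∀ x ∈ X, ∀ z : M, ∃ Y : AddSubgroup M, Y.FG ∧ z ∈ Y ∧ ∀ y ∈ Y, x • y ∈ Y ∧ x⁻¹ • y ∈ Y) →
    ∀ z : M, ∃ Y : AddSubgroup M, Y.FG ∧ z ∈ Y ∧ ∀ p : P, ∀ y ∈ Y, p • y ∈ Y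

/-- the commutator with `a`, in the form `y⁻¹ (a y a⁻¹)` -/
def dd {S : Type} [Group S] (a y : S) : S := y⁻¹ * (a * y * a⁻¹)

/-- Package STEP (may assume ACT, GR2 (proved: `Pool.Agent.P8H89.PG.gr2`), EXT). Let `M` be an abelian
normal subgroup of `S` on which `a` and `b` act locally quasi-unipotently, and let `⟨a, b⟩` be nilpotent
modulo `M`. Then `⟨a^m, b^m⟩` is nilpotent for some `m > 0`.

Proof. `W = ⟨a, b⟩`. By ACT for `P = W / (W ∩ M)` (or the image of `W` in `S ⧸ M`) acting on `M` by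
conjugation, each element of `M` lies in a finitely generated `W`-invariant subgroup of `M`
(`(f^m - 1)^k z = 0` gives a finitely generated subgroup invariant under `f` and `f⁻¹`). For some `c`
`V = lowerCentralSeries W c` lies in `M`; `V` is the normal closure in `W` of finitely many elements
(induction: if `γ_n W` is the normal closure of `F` and `W = ⟨X⟩` then `γ_(n+1) W` is the normal closure
of the `⁅f, x⁆`, `f ∈ F`, `x ∈ X`: modulo it the `f` are central), so `V` is a finitely generated abelian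
group. So `W` satisfies `MaxC` (`W/V` is finitely generated nilpotent: `Pool.Agent.H53R2.nil_maxC`, and
EXT) and some `a' = a^m`, `b' = b^m`, `m > 0`, act unipotently on `V`. GR2 for the group `W`, the element
`a'` and the chain `W = γ_0 ≥ γ_1 ≥ … ≥ γ_c = V ≥ ⊥` gives a nilpotent normal subgroup of `W` which
contains `a'`; the same for `b'`; the product of the two is nilpotent
(`Pool.Agent.Helper611.PcFit.fitting`). -/
def S_STEP : Prop :=
  ∀ (S : Type) [Group S] (M : Subgroup S) [M.Normal], ⁅M, M⁆ = ⊥ → ∀ a b : S,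
    (∀ x ∈ M, ∃ m : ℕ, 0 < m ∧ ∃ k : ℕ, (dd (a ^ m))^[k] x = 1) →
    (∀ x ∈ M, ∃ m : ℕ, 0 < m ∧ ∃ k : ℕ, (dd (b ^ m))^[k] x = 1) →
    Group.IsNilpotent ((Subgroup.closure {a, b}).map (QuotientGroup.mk' M)) →
    ∃ m : ℕ, 0 < m ∧ Group.IsNilpotent (Subgroup.closure {a ^ m, b ^ m})

/-- Package SOL (may assume STEP). A chain `N 0 ≥ N 1 ≥ … ≥ N l = ⊥` of normal subgroups of `S` with
abelian factors on which `t` acts locally quasi-unipotently; `g` commutes with some `t^m`, `m > 0`,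
modulo `N 0`. Then `t^m` and `g⁻¹ t^m g` generate a nilpotent group for some `m > 0`.

Proof. By induction on `i` there is `m > 0` such that `⟨t^m, g⁻¹ t^m g⟩` is nilpotent modulo `N i`
(`i = 0`: cyclic). Step: STEP in `S ⧸ N (i+1)` for the image `M` of `N i`, `a` and `b` the images of
`t^m` and `g⁻¹ t^m g` (`b` acts on `M` locally quasi-unipotently since it is conjugate to `a`). -/
def S_SOL : Prop :=
  ∀ (S : Type) [Group S] (t g : S) (N : ℕ → Subgroup S) (l : ℕ), (∀ i, (N i).Normal) → N l = ⊥ →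
    (∀ i, N (i + 1) ≤ N i) → (∀ i, ⁅N i, N i⁆ ≤ N (i + 1)) →
    (∃ m : ℕ, 0 < m ∧ dd (t ^ m) g ∈ N 0) →
    (∀ i, ∀ x ∈ N i, ∃ m : ℕ, 0 < m ∧ ∃ k : ℕ, (dd (t ^ m))^[k] x ∈ N (i + 1)) →
    ∃ m : ℕ, 0 < m ∧ Group.IsNilpotent (Subgroup.closure {t ^ m, g⁻¹ * t ^ m * g})

/-- Package VS (may assume SOL). Let `Γ` be virtually solvable and `σ` an automorphism which acts
locally quasi-unipotently on `K / [K, K]` for each `σ`-invariant subgroup `K`. Then for each `g` there
is `m > 0` such that some iterate of `D x = x⁻¹ σᵐ(x)` maps `g` to `1`, and `D g`, `D² g`, ... generate a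
nilpotent group.

Proof. Among the normal solvable subgroups of finite index of `Γ` (there is one: the normal core) let
`C` have minimal index; if `C'` is another one then `C C'` is also normal and solvable, so `C' ≤ C`; so
`C` is characteristic. `N 0 = C`, `N (i+1) = ⁅N i, N i⁆` are characteristic, `N l = ⊥`. Some `σ^m`,
`m > 0`, is the identity on the finite group `Γ / C`. Apply SOL in `S = Γ ⋊ ℤ`, the generator `t` of `ℤ`
acting as `σ`, to the images of the `N i`. With `a = t^m`, `W = ⟨a, g⁻¹ a g⟩` nilpotent,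
`D g = g⁻¹ a g a⁻¹ ∈ W`, `D^(i+1) g = (D^i g)⁻¹ a (D^i g) a⁻¹ ∈ lowerCentralSeries W i`. -/
def S_VS : Prop :=
  ∀ (Γ : Type) [Group Γ], (∃ H : Subgroup Γ, H.FiniteIndex ∧ Group.IsSolvable H) →
    ∀ σ : Γ ≃* Γ,
    (∀ K : Subgroup Γ, (∀ x, σ x ∈ K ↔ x ∈ K) → ∀ x ∈ K, ∃ m : ℕ, 0 < m ∧ ∃ k : ℕ,
      (diff σ.toMonoidHom m)^[k] x ∈ ⁅K, K⁆) →
    ∀ g : Γ, ∃ m : ℕ, 0 < m ∧ (∃ k : ℕ, (diff σ.toMonoidHom m)^[k] g = 1) ∧
      Group.IsNilpotent (Subgroup.closure {x : Γ | ∃ i : ℕ, x = (diff σ.toMonoidHom m)^[i + 1] g})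

end Pool.Agent.P8H24.PG
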